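import Mathlib

set_option autoImplicit false

namespace Pool.Agent.Results.MP_739307_an.DependsOnIdentity

open Filter Topology ZeroAtInfty

/-- A net `e` in the normed algebra `A` indexed by the directed set `J` is an approximate
identity: `e_j x → x` and `x e_j → x` in norm for every `x`. -/
def IsApproxId {A : Type} [NonUnitalNormedRing A] {J : Type} [Preorder J] (e : J → A) : Prop :=
  ∀ x : A, Tendsto (fun j => ‖e j * x - x‖) atTop (𝓝 0) ∧
    Tendsto (fun j => ‖x * e j - x‖) atTop (𝓝 0)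

/-- The condition `C(a, lam, E)`: there is a net `r`, indexed by the same directed set as `E`,
such that `(lam e_j - a) r_j` is an approximate identity. -/
def Cond {A : Type} [NonUnitalNormedRing A] [NormedSpace ℂ A] {J : Type} [Preorder J]
    (a : A) (lam : ℂ) (e : J → A) : Prop :=
  ∃ r : J → A, IsApproxId (fun j => (lam • e j - a) * r j)

/-- the function equal to `g` below `k` and to `0` from `k` on, as an element of `c_0`. -/
noncomputable def fs (k : ℕ) (g : ℕ → ℂ) : C₀(ℕ, ℂ) where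
  toFun n := if n < k then g n else 0
  continuous_toFun := continuous_of_discreteTopology
  zero_at_infty' := by
    rw [Filter.cocompact_eq_cofinite, Nat.cofinite_eq_atTop]
    refine tendsto_const_nhds.congr' ?_
    filter_upwards [eventually_ge_atTop k] with n hn
    rw [if_neg (by omega)]

lemma fs_apply (k : ℕ) (g : ℕ → ℂ) (n : ℕ) : fs k g n = if n < k then g n else 0 := rfl

lemma norm_apply_le (x : C₀(ℕ, ℂ)) (n : ℕ) : ‖x n‖ ≤ ‖x‖ := by
  rw [← ZeroAtInftyContinuousMap.norm_toBCF_eq_norm]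
  exact BoundedContinuousFunction.norm_coe_le_norm x.toBCF n

lemma norm_le_of (x : C₀(ℕ, ℂ)) (c : ℝ) (hc : 0 ≤ c) (h : ∀ n, ‖x n‖ ≤ c) : ‖x‖ ≤ c := by
  rw [← ZeroAtInftyContinuousMap.norm_toBCF_eq_norm]
  exact (BoundedContinuousFunction.norm_le hc).2 h

/-- the standard approximate identity of `c_0`. -/
noncomputable def e (k : ℕ) : C₀(ℕ, ℂ) := fs k (fun _ => 1)

lemma e_tendsto (x : C₀(ℕ, ℂ)) : Tendsto (fun k => ‖e k * x - x‖) atTop (𝓝 0) := by
  have h0 : Tendsto x atTop (𝓝 0) := by
    have := x.zero_at_infty'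
    rw [Filter.cocompact_eq_cofinite, Nat.cofinite_eq_atTop] at this
    exact this
  rw [Metric.tendsto_atTop] at h0 ⊢
  intro ε hε
  obtain ⟨N, hN⟩ := h0 (ε / 2) (by positivity)
  refine ⟨N, fun k hk => ?_⟩
  rw [dist_zero_right, norm_norm]
  refine lt_of_le_of_lt (norm_le_of _ (ε / 2) (by positivity) fun n => ?_) (by linarith)
  change ‖(if n < k then (1:ℂ) else 0) * x n - x n‖ ≤ ε / 2
  split_ifs with h
  · simp; positivity
  · have := hN n (by omega)
    rw [dist_zero_right] at this
    simpa using this.le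

lemma e_approx : IsApproxId e := by
  intro x
  refine ⟨e_tendsto x, ?_⟩
  simp_rw [mul_comm x]
  exact e_tendsto x

/-- scalars tending to one. -/
noncomputable def c (k : ℕ) : ℂ := ((1 - 1 / ((k : ℝ) + 2) : ℝ) : ℂ)

lemma c_tendsto : Tendsto c atTop (𝓝 1) := by
  have h1 : Tendsto (fun k : ℕ => 1 / ((k : ℝ) + 2)) atTop (𝓝 0) := by
    have := (tendsto_one_div_add_atTop_nhds_zero_nat (𝕜 := ℝ)).comp (tendsto_add_atTop_nat 1)
    refine this.congr fun n => ?_
    simp only [Function.comp]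
    push_cast
    ring
  have h2 : Tendsto (fun k : ℕ => (1 - 1 / ((k : ℝ) + 2) : ℝ)) atTop (𝓝 1) := by
    simpa using tendsto_const_nhds.sub h1
  exact (Complex.continuous_ofReal.tendsto 1).comp h2 |>.congr fun n => rfl

lemma c_ne_zero (k : ℕ) : c k ≠ 0 := by
  unfold c
  rw [Ne, Complex.ofReal_eq_zero]
  have : (0:ℝ) < (k : ℝ) + 2 := by positivity
  have h2 : 1 / ((k : ℝ) + 2) < 1 := by rw [div_lt_one this]; linarith [(Nat.cast_nonneg k : (0:ℝ) ≤ k)]
  linarith

lemma c_ne_one (k : ℕ) : c k ≠ 1 := by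
  unfold c
  rw [Ne, Complex.ofReal_eq_one]
  have : (0:ℝ) < 1 / ((k : ℝ) + 2) := by positivity
  linarith

/-- the second approximate identity. -/
noncomputable def f (k : ℕ) : C₀(ℕ, ℂ) := c k • e k

lemma f_tendsto (x : C₀(ℕ, ℂ)) : Tendsto (fun k => ‖f k * x - x‖) atTop (𝓝 0) := by
  have h1 : Tendsto (fun k => e k * x) atTop (𝓝 x) := by
    rw [tendsto_iff_norm_sub_tendsto_zero]; exact e_tendsto x
  have h2 : Tendsto (fun k => f k * x) atTop (𝓝 x) := by
    have := c_tendsto.smul h1
    rw [one_smul] at this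
    refine this.congr fun k => ?_
    unfold f
    rw [smul_mul_assoc]
  rw [tendsto_iff_norm_sub_tendsto_zero] at h2
  exact h2

lemma f_approx : IsApproxId f := by
  intro x
  refine ⟨f_tendsto x, ?_⟩
  simp_rw [mul_comm x]
  exact f_tendsto x

/-- the element `a`: the indicator of the point `0` (an idempotent). -/
noncomputable def a : C₀(ℕ, ℂ) := fs 1 (fun _ => 1)

/-- `C(a, lam, E)` **depends on the choice of the approximate identity**: in the non-unital
commutative Banach algebra `c_0 = C₀(ℕ, ℂ)` there are an element `a` and two approximate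
identities `E`, `F`, both sequences of norm at most `1`, such that `C(a, 1, F)` holds and
`C(a, 1, E)` fails. -/
theorem result :
    (¬ ∃ u : C₀(ℕ, ℂ), ∀ x : C₀(ℕ, ℂ), u * x = x) ∧
    ∃ (a : C₀(ℕ, ℂ)) (E F : ℕ → C₀(ℕ, ℂ)), IsApproxId E ∧ IsApproxId F ∧
      (∀ k, ‖E k‖ ≤ 1) ∧ (∀ k, ‖F k‖ ≤ 1) ∧ ¬ Cond a 1 E ∧ Cond a 1 F := by
  have he : ∀ k, ‖e k‖ ≤ 1 := by
    intro k
    refine norm_le_of _ 1 zero_le_one fun n => ?_
    change ‖(if n < k then (1:ℂ) else 0)‖ ≤ 1
    split_ifs <;> simp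
  refine ⟨?_, a, e, f, e_approx, f_approx, he, ?_, ?_, ?_⟩
  · rintro ⟨u, hu⟩
    have h1 : ∀ n, u n = 1 := by
      intro n
      have := DFunLike.congr_fun (hu (fs (n + 1) (fun _ => 1))) n
      rw [ZeroAtInftyContinuousMap.mul_apply, fs_apply, if_pos (by omega), mul_one] at this
      exact this
    have h0 : Tendsto u atTop (𝓝 0) := by
      have := u.zero_at_infty'
      rw [Filter.cocompact_eq_cofinite, Nat.cofinite_eq_atTop] at this
      exact this
    have h2 : Tendsto u atTop (𝓝 1) := tendsto_const_nhds.congr fun n => (h1 n).symm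
    exact one_ne_zero (tendsto_nhds_unique h2 h0)
  · intro k
    unfold f
    rw [norm_smul]
    have h1 : ‖c k‖ ≤ 1 := by
      unfold c
      rw [Complex.norm_real, Real.norm_eq_abs, abs_le]
      have h3 : (0:ℝ) < 1 / ((k : ℝ) + 2) := by positivity
      have : (0:ℝ) < (k : ℝ) + 2 := by positivity
      have h2 : 1 / ((k : ℝ) + 2) < 1 := by
        rw [div_lt_one this]; linarith [(Nat.cast_nonneg k : (0:ℝ) ≤ k)]
      constructor <;> linarith
    calc ‖c k‖ * ‖e k‖ ≤ 1 * 1 := mul_le_mul h1 (he k) (norm_nonneg _) zero_le_one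
      _ = 1 := one_mul 1
  · rintro ⟨r, hr⟩
    have h1 := (hr a).1
    have h2 : ∀ k : ℕ, 1 ≤ k → 1 ≤ ‖((1 : ℂ) • e k - a) * r k * a - a‖ := by
      intro k hk
      refine le_trans (le_of_eq ?_) (norm_apply_le _ 0)
      change 1 = ‖(((1:ℂ) • (if 0 < k then (1:ℂ) else 0)) - (if 0 < 1 then (1:ℂ) else 0)) * (r k) 0 *
        (if 0 < 1 then (1:ℂ) else 0) - (if 0 < 1 then (1:ℂ) else 0)‖
      rw [if_pos (by omega), if_pos (by omega)]
      simp
    rw [Metric.tendsto_atTop] at h1
    obtain ⟨N, hN⟩ := h1 1 one_pos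
    have h3 := hN (N + 1) (by omega)
    have h4 := h2 (N + 1) (by omega)
    rw [dist_zero_right, norm_norm] at h3
    linarith
  · refine ⟨fun k => fs k (fun n => (c k - (if n < 1 then 1 else 0))⁻¹), ?_⟩
    have key : (fun k => ((1 : ℂ) • f k - a) * fs k (fun n => (c k - (if n < 1 then 1 else 0))⁻¹)) = e := by
      funext k
      ext n
      change ((1:ℂ) • (c k • (if n < k then (1:ℂ) else 0)) - (if n < 1 then (1:ℂ) else 0)) *
        (if n < k then (c k - (if n < 1 then (1:ℂ) else 0))⁻¹ else 0) = (if n < k then (1:ℂ) else 0)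
      by_cases hnk : n < k
      · rw [if_pos hnk, if_pos hnk]
        have hne : c k - (if n < 1 then (1:ℂ) else 0) ≠ 0 := by
          split_ifs
          · exact sub_ne_zero.2 (c_ne_one k)
          · simpa using c_ne_zero k
        simp only [smul_eq_mul, mul_one, one_mul]
        exact mul_inv_cancel₀ hne
      · rw [if_neg hnk, if_neg hnk, mul_zero]
    rw [key]
    exact e_approx

end Pool.Agent.Results.MP_739307_an.DependsOnIdentity
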